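import Pool.Agent.J6H67.BW.Main

/-!
# Ramsey numbers of bounded-degree graphs with small bandwidth

For every `Δ` there are `n₀` and `β > 0` such that every graph `H` on `n ≥ n₀` vertices with
maximum degree at most `Δ` and bandwidth at most `β n` satisfies `R(H,H) ≤ (χ(H) + 6) n`.
The constant `6` is absolute: it does not depend on `Δ`.

Outline of the proof.  Let `q = χ(H) + 1`.

1. Szemerédi's lemma is applied twice to a two-coloured `K_N`: to the whole graph, and then inside
   every cluster with a much larger error.  Inside the clusters almost everything is covered by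
   tiles, i.e. sets of `q` subclusters all pairs of which are regular and have the same majority
   colour.  As the first partition is much finer, any two tiles in different clusters which form
   a regular pair are related in a pure way, red or blue.
2. Tiles of the same colour fall into components (two tiles are connected if one can move from one
   to the other through cliques of their colour, exchanging one subcluster at a time).  Tiles in
   different red components are related in blue, and vice versa.  Hence, unless there is a
   connected fractional tiling of weight `n`, there are fewer than `q` components of weight at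
   least `n / q` in each colour, and the light components of each colour weigh at most `2 n`.
3. A tile of a heavy red component `A` can be enlarged at random by subclusters of tiles of the
   heavy blue components which are related to it in red.  If there is no connected tiling of
   weight `n`, this (and the Cauchy-Schwarz inequality) gives `w(A) ≤ n (1 - ρ(A) / q)`, where
   `ρ(A)` is the expected number of the blue components that can be used.  As each pair of a red
   and a blue component is counted at least once, the heavy components weigh at most
   `n (a + b - a b / q) ≤ n q`.  So the total weight is less than `(q + 5) n = (χ(H) + 6) n`.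
4. A connected fractional tiling of weight `n` by cliques with `q = χ(H) + 1` subclusters gives,
   by vector balancing, a homomorphism from `H` to the reduced graph without overfull clusters, and
   then a greedy algorithm which uses the small bandwidth embeds `H`.
-/

set_option autoImplicit false

open Finset

namespace Pool.Agent.Results.MP_f1903f_co.AbsoluteConstant

/-- The Ramsey number `R(H,H)`: the least `N` such that for every graph `G` with `N` vertices (the
red edges of a two-colouring of the edges of `K_N`; the blue edges are those of the complement)
`H` is isomorphic to a subgraph of `G` or of its complement. -/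
noncomputable def ramseyNumber {V : Type} (H : SimpleGraph V) : ℕ :=
  sInf {N : ℕ | ∀ G : SimpleGraph (Fin N), H.IsContained G ∨ H.IsContained Gᶜ}

/-- The bandwidth of a finite graph with `n` vertices: the least `b` for which there is a bijection
`f` from the vertices to `{0, …, n - 1}` with `|f u - f v| ≤ b` for every edge `uv`. -/
noncomputable def bandwidth {V : Type} [Fintype V] (H : SimpleGraph V) : ℕ :=
  sInf {b : ℕ | ∃ f : V ≃ Fin (Fintype.card V), ∀ u v, H.Adj u v →
    |((f u : ℕ) : ℤ) - ((f v : ℕ) : ℤ)| ≤ (b : ℤ)}

/-- greedy colouring -/
theorem colorable_of_degree {V : Type} [Fintype V] (H : SimpleGraph V) (Δ : ℕ)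
    (hΔ : ∀ v, (H.neighborSet v).ncard ≤ Δ) : H.Colorable (Δ + 1) := by
  classical
  have key : ∀ s : Finset V, ∃ C : V → Fin (Δ + 1), ∀ u ∈ s, ∀ v ∈ s, H.Adj u v → C u ≠ C v := by
    intro s
    induction s using Finset.induction_on with
    | empty => exact ⟨fun _ => 0, by simp⟩
    | insert a s ha ih =>
      obtain ⟨C, hC⟩ := ih
      have h1 : #((H.neighborFinset a).image C) < #(univ : Finset (Fin (Δ + 1))) := by
        rw [card_univ, Fintype.card_fin]
        have h2 : #(H.neighborFinset a) ≤ Δ := by
          have := hΔ a
          rwa [← SimpleGraph.coe_neighborFinset, Set.ncard_coe_finset] at this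
        exact lt_of_le_of_lt (card_image_le.trans h2) (Nat.lt_succ_self _)
      obtain ⟨c, _, hc⟩ := exists_mem_notMem_of_card_lt_card h1
      refine ⟨Function.update C a c, ?_⟩
      intro u hu v hv huv
      rw [mem_insert] at hu hv
      rcases eq_or_ne u a with rfl | hua
      · have hvu : v ≠ u := huv.ne'
        rw [Function.update_self, Function.update_of_ne hvu]
        intro h
        apply hc
        rw [mem_image]
        exact ⟨v, by rw [SimpleGraph.mem_neighborFinset]; exact huv, h.symm⟩
      · rcases eq_or_ne v a with rfl | hva
        · rw [Function.update_self, Function.update_of_ne hua]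
          intro h
          apply hc
          rw [mem_image]
          exact ⟨u, by rw [SimpleGraph.mem_neighborFinset]; exact huv.symm, h⟩
        · rw [Function.update_of_ne hua, Function.update_of_ne hva]
          exact hC u (hu.resolve_left hua) v (hv.resolve_left hva) huv
  obtain ⟨C, hC⟩ := key univ
  exact ⟨SimpleGraph.Coloring.mk C (fun {u v} huv => hC u (mem_univ _) v (mem_univ _) huv)⟩

/-- **Theorem.** For every `Δ` there are `n₀` and `β > 0` such that for every graph `H` with
`n ≥ n₀` vertices, maximum degree at most `Δ` and bandwidth at most `β n`, every two-colouring of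
the edges of the complete graph with `(χ(H) + 6) n` vertices contains a monochromatic copy of `H`;
hence `R(H,H) ≤ (χ(H) + 6) n`. The constant `6` does not depend on `Δ`. -/
theorem result : ∀ Δ : ℕ, ∃ (n₀ : ℕ) (β : ℝ), 0 < β ∧
    ∀ (V : Type) [Fintype V] (H : SimpleGraph V), n₀ ≤ Fintype.card V →
      (∀ v, (H.neighborSet v).ncard ≤ Δ) → (bandwidth H : ℝ) ≤ β * Fintype.card V →
      (∀ G : SimpleGraph (Fin ((H.chromaticNumber.toNat + 6) * Fintype.card V)),
        H.IsContained G ∨ H.IsContained Gᶜ) ∧
      ramseyNumber H ≤ (H.chromaticNumber.toNat + 6) * Fintype.card V := by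
  classical
  intro Δ
  choose β n₀ hβ hmain using fun χ => J6H67.BW.main_embedding Δ χ
  have hne : (range (Δ + 2)).Nonempty := ⟨0, by simp⟩
  refine ⟨(range (Δ + 2)).sup n₀, (range (Δ + 2)).inf' hne β, ?_, ?_⟩
  · rw [lt_inf'_iff]
    exact fun χ _ => hβ χ
  intro V _ H hn hΔ hbw
  set n := Fintype.card V with hndef
  set χ := H.chromaticNumber.toNat with hχ
  have hcolor : H.Colorable χ := SimpleGraph.colorable_chromaticNumber_of_fintype H
  have hχΔ : χ ≤ Δ + 1 := by
    have h1 := (colorable_of_degree H Δ hΔ).chromaticNumber_le
    have h2 := ENat.toNat_le_toNat h1 (ENat.natCast_ne_top _)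
    have h3 : ((Δ + 1 : ℕ) : ℕ∞).toNat = Δ + 1 := ENat.toNat_natCast _
    rw [h3] at h2
    exact h2
  have hχmem : χ ∈ range (Δ + 2) := by rw [mem_range]; omega
  -- the ordering
  have hbne : {b : ℕ | ∃ f : V ≃ Fin (Fintype.card V), ∀ u v, H.Adj u v →
      |((f u : ℕ) : ℤ) - ((f v : ℕ) : ℤ)| ≤ (b : ℤ)}.Nonempty := by
    refine ⟨Fintype.card V, Fintype.equivFin V, ?_⟩
    intro u v _
    rw [abs_le]
    have h1 := (Fintype.equivFin V u).2
    have h2 := (Fintype.equivFin V v).2
    constructor <;> omega
  obtain ⟨e, he⟩ := Nat.sInf_mem hbne
  set H' : SimpleGraph (Fin n) := H.comap e.symm with hH'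
  have key : ∀ G : SimpleGraph (Fin ((χ + 6) * n)), H.IsContained G ∨ H.IsContained Gᶜ := by
    intro G
    obtain ⟨col⟩ := hcolor
    obtain ⟨b0, f, hf1, hf2⟩ := hmain χ n ((le_sup (f := n₀) hχmem).trans hn) H' (bandwidth H)
      (hbw.trans (mul_le_mul_of_nonneg_right (inf'_le _ hχmem) (Nat.cast_nonneg _)))
      (by
        intro x y hxy
        have h1 := he _ _ hxy
        rw [Equiv.apply_symm_apply, Equiv.apply_symm_apply, abs_le] at h1
        have h2 : ((bandwidth H : ℕ) : ℤ) = ((sInf {b : ℕ | ∃ f : V ≃ Fin (Fintype.card V),
          ∀ u v, H.Adj u v → |((f u : ℕ) : ℤ) - ((f v : ℕ) : ℤ)| ≤ (b : ℤ)} : ℕ) : ℤ) := rfl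
        rw [← h2] at h1
        omega)
      (by
        intro x
        refine le_trans (le_of_eq ?_) (hΔ (e.symm x))
        have h1 : ((univ.filter (fun y => H'.Adj x y) : Finset (Fin n)) : Set (Fin n)) =
            e '' (H.neighborSet (e.symm x)) := by
          ext y
          simp only [coe_filter, mem_univ, true_and, Set.mem_image, hH']
          constructor
          · intro h
            exact ⟨e.symm y, h, by simp⟩
          · rintro ⟨v, hv, rfl⟩
            change H.Adj (e.symm x) (e.symm (e v))
            rw [Equiv.symm_apply_apply]
            exact hv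
        have h2 : #(univ.filter (fun y => H'.Adj x y) : Finset (Fin n)) =
            (H.neighborSet (e.symm x)).ncard := by
          rw [← Set.ncard_coe_finset, h1]
          exact Set.ncard_image_of_injective _ e.injective
        convert h2)
      (fun x => col (e.symm x)) (fun x y hxy => col.valid hxy) _ rfl G
    have hcopy : ∀ (G' : SimpleGraph (Fin ((χ + 6) * n))),
        (∀ x y, H'.Adj x y → G'.Adj (f x) (f y)) → H.IsContained G' := by
      intro G' hG'
      refine ⟨⟨⟨fun v => f (e v), ?_⟩, ?_⟩⟩
      · intro u v huv
        apply hG'
        change H.Adj (e.symm (e u)) (e.symm (e v))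
        rw [Equiv.symm_apply_apply, Equiv.symm_apply_apply]
        exact huv
      · exact hf1.comp e.injective
    cases b0 with
    | true => exact Or.inl (hcopy G hf2)
    | false => exact Or.inr (hcopy Gᶜ hf2)
  exact ⟨key, Nat.sInf_le key⟩

end Pool.Agent.Results.MP_f1903f_co.AbsoluteConstant
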